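import Mathlib
import Pool.Agent.Y201.LI.Stm5
import Pool.Agent.Y929.LI.Pre

/-! # Project LI: points on the polar hypersurfaces of a generic point of a hyperplane and of a
constant point outside of the hyperplane (S_LAM2; helper523, for helper201) -/

set_option autoImplicit false

namespace Pool.Agent.Y523.LI

open MvPolynomial Pool.Agent.TH314.PD IntermediateField Module Pool.Agent.Y201.LI
  Pool.Agent.Y929.LI

noncomputable section

/-- the quotient of a form by a coordinate is a form -/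
theorem quot_hom {r e : ℕ} {i₀ : Fin r} {H' : MvPolynomial (Fin r) ℂ}
    (hH : (X i₀ * H').IsHomogeneous e) :
    (e = 0 → H' = 0) ∧ ∀ k, e = k + 1 → H'.IsHomogeneous k := by
  have key : ∀ m, coeff m H' ≠ 0 → 1 + Finsupp.weight 1 m = e := by
    intro m hm
    have h1 : coeff (Finsupp.single i₀ 1 + m) (X i₀ * H') ≠ 0 := by
      rw [coeff_X_mul]
      exact hm
    have h2 := hH h1
    rw [map_add, Finsupp.weight_single] at h2
    simpa using h2
  constructor
  · intro he
    ext m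
    rw [coeff_zero]
    by_contra hm
    have := key m hm
    omega
  · intro k hk m hm
    have := key m hm
    omega

/-- the point `ζ + θ η` is generic -/
theorem generic {r : ℕ} {κ Ω : Type} [Field κ] [Field Ω] [Algebra ℂ κ] [Algebra ℂ Ω] [Algebra κ Ω]
    [IsScalarTower ℂ κ Ω] (η : Fin r → ℂ) (i₀ : Fin r) (hη : η i₀ ≠ 0) (ζ : Fin r → κ)
    (hζ0 : ζ i₀ = 0)
    (hζ : ∀ (e : ℕ) (H : MvPolynomial (Fin r) ℂ), H.IsHomogeneous e → aeval ζ H = 0 → X i₀ ∣ H)
    (θ : Ω) (hθ : Transcendental κ θ) (e : ℕ) :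
    ∀ H : MvPolynomial (Fin r) ℂ, H.IsHomogeneous e →
      aeval (fun i => algebraMap κ Ω (ζ i) + θ * algebraMap ℂ Ω (η i)) H = 0 → H = 0 := by
  have hθ0 : θ ≠ 0 := by
    rintro rfl
    exact hθ isAlgebraic_zero
  have step : ∀ (k : ℕ) (H : MvPolynomial (Fin r) ℂ), H.IsHomogeneous k →
      aeval (fun i => algebraMap κ Ω (ζ i) + θ * algebraMap ℂ Ω (η i)) H = 0 →
      ∃ H', H = X i₀ * H' ∧
        aeval (fun i => algebraMap κ Ω (ζ i) + θ * algebraMap ℂ Ω (η i)) H' = 0 := by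
    intro k H hH h0
    let Q : Polynomial κ := aeval (fun i => Polynomial.C (ζ i) +
      Polynomial.X * Polynomial.C (algebraMap ℂ κ (η i))) H
    have hQ1 : Polynomial.aeval θ Q = 0 := by
      rw [← h0]
      have h1 : ((Polynomial.aeval θ : Polynomial κ →ₐ[κ] Ω).restrictScalars ℂ) Q =
          aeval (fun i => ((Polynomial.aeval θ : Polynomial κ →ₐ[κ] Ω).restrictScalars ℂ)
            (Polynomial.C (ζ i) + Polynomial.X * Polynomial.C (algebraMap ℂ κ (η i)))) H := by
        rw [← comp_aeval_apply]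
      refine h1.trans ?_
      congr 2
      funext i
      show Polynomial.aeval θ (Polynomial.C (ζ i) +
        Polynomial.X * Polynomial.C (algebraMap ℂ κ (η i))) = _
      rw [map_add, map_mul, Polynomial.aeval_C, Polynomial.aeval_C, Polynomial.aeval_X,
        ← IsScalarTower.algebraMap_apply]
    have hQ : Q = 0 := by
      by_contra hne
      exact hθ ⟨Q, hne, hQ1⟩
    have hev : aeval ζ H = 0 := by
      have h1 : ((Polynomial.aeval (0 : κ) : Polynomial κ →ₐ[κ] κ).restrictScalars ℂ) Q =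
          aeval (fun i => ((Polynomial.aeval (0 : κ) : Polynomial κ →ₐ[κ] κ).restrictScalars ℂ)
            (Polynomial.C (ζ i) + Polynomial.X * Polynomial.C (algebraMap ℂ κ (η i)))) H := by
        rw [← comp_aeval_apply]
      have h2 : (fun i => ((Polynomial.aeval (0 : κ) : Polynomial κ →ₐ[κ] κ).restrictScalars ℂ)
            (Polynomial.C (ζ i) + Polynomial.X * Polynomial.C (algebraMap ℂ κ (η i)))) = ζ := by
        funext i
        show Polynomial.aeval (0 : κ) (Polynomial.C (ζ i) +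
          Polynomial.X * Polynomial.C (algebraMap ℂ κ (η i))) = _
        rw [map_add, map_mul, Polynomial.aeval_C, Polynomial.aeval_X, zero_mul, add_zero]
        rfl
      rw [h2, hQ, map_zero] at h1
      exact h1.symm
    obtain ⟨H', rfl⟩ := hζ k H hH hev
    refine ⟨H', rfl, ?_⟩
    rw [map_mul, aeval_X, hζ0, map_zero, zero_add] at h0
    rcases mul_eq_zero.1 h0 with h | h
    · rcases mul_eq_zero.1 h with h | h
      · exact absurd h hθ0
      · exact absurd ((map_eq_zero _).1 h) hη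
    · exact h
  induction e with
  | zero =>
    intro H hH h0
    obtain ⟨H', rfl, -⟩ := step 0 H hH h0
    rw [(quot_hom hH).1 rfl, mul_zero]
  | succ e ih =>
    intro H hH h0
    obtain ⟨H', rfl, h1⟩ := step (e + 1) H hH h0
    rw [ih H' ((quot_hom hH).2 e rfl) h1, mul_zero]

/-- the fields generated by the ratios -/
theorem range_eq {r : ℕ} {κ Ω : Type} [Field κ] [Field Ω] [Algebra ℂ κ] [Algebra ℂ Ω]
    [Algebra κ Ω] [IsScalarTower ℂ κ Ω] (η : Fin r → ℂ) (i₀ i₁ : Fin r) (hη : η i₀ ≠ 0)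
    (ζ : Fin r → κ) (hζ0 : ζ i₀ = 0) (hζ1 : ζ i₁ = 1) (θ : Ω) (hθ0 : θ ≠ 0) (z : Fin r → Ω)
    (hz : ∀ i, z i = algebraMap κ Ω (ζ i) + θ * algebraMap ℂ Ω (η i)) :
    (algebraMap (adjoin (ratioField ζ) {θ}) Ω).range = (algebraMap (ratioField z) Ω).range := by
  have hη' : algebraMap ℂ Ω (η i₀) ≠ 0 := fun h => hη ((map_eq_zero _).1 h)
  have hrat : ∀ i j, z i / z j ∈ ratioField z := fun i j => subset_adjoin ℂ _ ⟨i, j, rfl⟩
  have hz0 : z i₀ = θ * algebraMap ℂ Ω (η i₀) := by rw [hz, hζ0, map_zero, zero_add]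
  have hcz : ∀ c : ℂ, algebraMap ℂ Ω c ∈ ratioField z := fun c => (ratioField z).algebraMap_mem c
  -- `θ` is in the field
  have hθz : θ ∈ ratioField z := by
    have h1 : z i₁ / z i₀ * algebraMap ℂ Ω (η i₀) - algebraMap ℂ Ω (η i₁) = θ⁻¹ := by
      rw [hz0, hz, hζ1, map_one]
      field_simp
      ring
    have h2 : θ⁻¹ ∈ ratioField z := by
      rw [← h1]
      exact sub_mem (mul_mem (hrat _ _) (hcz _)) (hcz _)
    have h3 := inv_mem h2
    rwa [inv_inv] at h3
  have hζz : ∀ i, algebraMap κ Ω (ζ i) ∈ ratioField z := by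
    intro i
    have h1 : algebraMap κ Ω (ζ i) =
        z i / z i₀ * (θ * algebraMap ℂ Ω (η i₀)) - θ * algebraMap ℂ Ω (η i) := by
      rw [hz0, div_mul_cancel₀ _ (mul_ne_zero hθ0 hη'), hz]
      ring
    rw [h1]
    exact sub_mem (mul_mem (hrat _ _) (mul_mem hθz (hcz _))) (mul_mem hθz (hcz _))
  ext w
  constructor
  · rintro ⟨b, rfl⟩
    have h4 : (adjoin (ratioField ζ) {θ}).toSubfield ≤ (ratioField z).toSubfield := by
      rw [adjoin_toSubfield, Subfield.closure_le]
      rintro x (⟨c, rfl⟩ | hx)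
      · have h5 : ratioField ζ ≤ (ratioField z).comap (IsScalarTower.toAlgHom ℂ κ Ω) := by
          have h6 : adjoin ℂ {x | ∃ i j, x = ζ i / ζ j} ≤
              (ratioField z).comap (IsScalarTower.toAlgHom ℂ κ Ω) := by
            rw [IntermediateField.adjoin_le_iff]
            rintro _ ⟨i, j, rfl⟩
            show algebraMap κ Ω (ζ i / ζ j) ∈ ratioField z
            rw [map_div₀]
            exact div_mem (hζz i) (hζz j)
          exact h6
        exact h5 c.2
      · rw [Set.mem_singleton_iff] at hx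
        subst hx
        exact hθz
    exact ⟨⟨_, h4 b.2⟩, rfl⟩
  · rintro ⟨b, rfl⟩
    have hζ' : ∀ i, algebraMap κ Ω (ζ i) ∈ adjoin (ratioField ζ) {θ} := by
      intro i
      have h5 : ζ i ∈ ratioField ζ := by
        have h6 : ζ i / ζ i₁ ∈ ratioField ζ := subset_adjoin ℂ _ ⟨i, i₁, rfl⟩
        rwa [hζ1, div_one] at h6
      exact (adjoin (ratioField ζ) {θ}).algebraMap_mem (⟨_, h5⟩ : ratioField ζ)
    have hc' : ∀ c : ℂ, algebraMap ℂ Ω c ∈ adjoin (ratioField ζ) {θ} := by
      intro c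
      have h5 : algebraMap ℂ Ω c = algebraMap (ratioField ζ) Ω (algebraMap ℂ _ c) := by
        rw [IsScalarTower.algebraMap_apply ℂ κ Ω]
        rfl
      rw [h5]
      exact (adjoin (ratioField ζ) {θ}).algebraMap_mem _
    have hz' : ∀ i, z i ∈ adjoin (ratioField ζ) {θ} := by
      intro i
      rw [hz]
      exact add_mem (hζ' i) (mul_mem (mem_adjoin_simple_self _ θ) (hc' _))
    have h4 : (ratioField z).toSubfield ≤ (adjoin (ratioField ζ) {θ}).toSubfield := by
      have h6 : (adjoin ℂ {x | ∃ i j, x = z i / z j}).toSubfield ≤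
          (adjoin (ratioField ζ) {θ}).toSubfield := by
        rw [adjoin_toSubfield, Subfield.closure_le]
        rintro x (⟨c, rfl⟩ | ⟨i, j, rfl⟩)
        · exact hc' c
        · exact div_mem (hz' i) (hz' j)
      exact h6
    exact ⟨⟨_, h4 b.2⟩, rfl⟩

theorem lam2_aux (h1 : S_LAM) (h2 : S_EXT) (r d : ℕ) (F : MvPolynomial (Fin r) ℂ)
    (hF : F.IsHomogeneous d) (hd : 2 ≤ d)
    (hsm : ∀ z : Fin r → ℂ, (∀ i, eval z (pderiv i F) = 0) → z = 0)
    (η : Fin r → ℂ) (i₀ i₁ : Fin r) (hη : η i₀ ≠ 0)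
    (κ : Type) [Field κ] [Algebra ℂ κ] (ζ : Fin r → κ) (hζ0 : ζ i₀ = 0) (hζ1 : ζ i₁ = 1)
    (hζ : ∀ (e : ℕ) (H : MvPolynomial (Fin r) ℂ), H.IsHomogeneous e → aeval ζ H = 0 → X i₀ ∣ H)
    (y : Fin r → κ) (hy : y ≠ 0) (hy1 : ∑ i, ζ i * aeval y (pderiv i F) = 0)
    (hy2 : ∑ i, algebraMap ℂ κ (η i) * aeval y (pderiv i F) = 0)
    [FiniteDimensional (ratioField ζ) κ] (Ω : Type) [Field Ω] [Algebra ℂ Ω] [Algebra κ Ω]
    [IsScalarTower ℂ κ Ω] (θ : Ω) (hθ : Transcendental κ θ) (htop : adjoin κ {θ} = ⊤) :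
    d - 1 ∣ finrank (ratioField ζ) κ := by
  have hθ0 : θ ≠ 0 := by
    rintro rfl
    exact hθ isAlgebraic_zero
  let z : Fin r → Ω := fun i => algebraMap κ Ω (ζ i) + θ * algebraMap ℂ Ω (η i)
  have hθu : AlgebraicIndependent κ (fun _ : Unit => θ) :=
    algebraicIndependent_unique_type_iff.2 hθ
  have hru : Set.range (fun _ : Unit => θ) = {θ} := Set.range_const
  have hch : CharZero (ratioField ζ) :=
    charZero_of_injective_algebraMap (algebraMap ℂ _).injective
  obtain ⟨hfd, hfr⟩ := h2 (ratioField ζ) κ Ω Unit (fun _ => θ) hθu (by rw [hru]; exact htop)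
  have hrange : (algebraMap (adjoin (ratioField ζ) (Set.range fun _ : Unit => θ)) Ω).range =
      (algebraMap (ratioField z) Ω).range := by
    rw [hru]
    exact range_eq η i₀ i₁ hη ζ hζ0 hζ1 θ hθ0 z fun i => rfl
  obtain ⟨hfd2, hfr2⟩ := fin_of_range hrange
  rw [← hfr, ← hfr2]
  refine h1 r d F hF hd hsm Ω z (generic η i₀ hη ζ hζ0 hζ θ hθ) (fun i => algebraMap κ Ω (y i))
    ?_ ?_
  · intro h4
    apply hy
    funext i
    exact (map_eq_zero (algebraMap κ Ω)).1 (congrFun h4 i)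
  · have h4 : ∀ i, z i * aeval (fun i => algebraMap κ Ω (y i)) (pderiv i F) =
        algebraMap κ Ω (ζ i * aeval y (pderiv i F)) +
          θ * algebraMap κ Ω (algebraMap ℂ κ (η i) * aeval y (pderiv i F)) := by
      intro i
      have h5 : aeval (fun i => algebraMap κ Ω (y i)) (pderiv i F) =
          algebraMap κ Ω (aeval y (pderiv i F)) := aeval_algebraMap_apply Ω y _
      rw [h5]
      show (algebraMap κ Ω (ζ i) + θ * algebraMap ℂ Ω (η i)) * _ = _
      rw [map_mul, map_mul, ← IsScalarTower.algebraMap_apply]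
      ring
    rw [Finset.sum_congr rfl fun i _ => h4 i, Finset.sum_add_distrib, ← Finset.mul_sum,
      ← map_sum, ← map_sum, hy1, hy2, map_zero, mul_zero, add_zero]

/-- job LAM2 -/
theorem lam2 (h1 : S_LAM) (h2 : S_EXT) : S_LAM2 := by
  intro r d F hF hd hsm η i₀ i₁ hη _ κ _ _ ζ hζ0 hζ1 hζ y hy hy1 hy2
  by_cases hfd : FiniteDimensional (ratioField ζ) κ
  · have _ : IsScalarTower ℂ κ (RatFunc κ) := IsScalarTower.of_algebraMap_eq fun _ => rfl
    exact lam2_aux h1 h2 r d F hF hd hsm η i₀ i₁ hη κ ζ hζ0 hζ1 hζ y hy hy1 hy2 (RatFunc κ)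
      RatFunc.X RatFunc.transcendental_X RatFunc.adjoin_X
  · rw [finrank_of_not_finite hfd]
    exact dvd_zero _

end

end Pool.Agent.Y523.LI
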